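import Pool.Agent.Lib.MP_db3ceb_pr.Main

open MeasureTheory ProbabilityTheory Filter

namespace Pool.Agent.Results.MP_db3ceb_pr.CycleDensity

open Pool.Agent.Lib.MP_db3ceb_pr

/-- Supercritical bond percolation on the square lattice: `C_n / n²` converges in probability
to a constant. -/
theorem result (p : unitInterval) (hp : 1 / 2 < (p : ℝ)) : ∃ κ : ℝ,
    TendstoInMeasure (setBernoulli lattice.edgeSet p)
      (fun (n : ℕ) (ω : Set (Sym2 (ℤ × ℤ))) => (longestCycle n ω : ℝ) / (n : ℝ) ^ 2) atTop
      fun _ => κ :=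
  main p hp

end Pool.Agent.Results.MP_db3ceb_pr.CycleDensity
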