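import Pool.Agent.Lib.LP93.Tail

open MeasureTheory ProbabilityTheory Filter Topology

namespace Pool.Agent.Results.MP_db3ceb_pr.PathLimit

open Pool.Agent.Lib.MP_db3ceb_pr Pool.Agent.Lib.LP93

/-- Supercritical bond percolation on the square lattice: almost surely the longest path and the
longest cycle of the box agree to leading order `n²`. -/
theorem result (p : unitInterval) (hp : 1 / 2 < (p : ℝ)) :
    ∀ᵐ ω ∂setBernoulli lattice.edgeSet p,
      Tendsto (fun n : ℕ => ((longestPath n ω : ℝ) - (longestCycle n ω : ℝ)) / (n : ℝ) ^ 2)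
        atTop (𝓝 0) := by
  obtain ⟨κ, -, h, -⟩ := main_as p hp
  refine h.mono fun ω hω => ?_
  simpa only [sub_div, sub_self] using hω.2.sub hω.1

end Pool.Agent.Results.MP_db3ceb_pr.PathLimit
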